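import Mathlib
import Pool.Agent.V8H39.SR.Tree

/-!
# Most inputs are nice
-/

set_option autoImplicit false

open Finset

namespace Pool.Agent.V8H39.SR

/-- If flipping the bit `i ∈ I` changes `g` by `c i`, and the `c i` are different, then no
value of `g` is taken too often (the sets `g = y + c i` are disjoint and have the same size). -/
theorem flip_count {V : Type} [Fintype V] [DecidableEq V] {F : Type} [Field F] [CharP F 2]
    (g : (V → Bool) → F) (I : Finset V) (c : V → F) (hc : Set.InjOn c I)
    (hg : ∀ x, ∀ i ∈ I, g (Function.update x i (!x i)) = g x + c i) (y : F) :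
    Nat.card {x // g x = y} * I.card ≤ 2 ^ Fintype.card V := by
  classical
  have hinj : Function.Injective (fun q : {x : V → Bool // g x = y} × I =>
      Function.update q.1.1 q.2.1 (!q.1.1 q.2.1)) := by
    rintro ⟨⟨x, hx⟩, ⟨i, hi⟩⟩ ⟨⟨x', hx'⟩, ⟨j, hj⟩⟩ h
    simp only at h
    have h1 := hg x i hi
    have h2 := hg x' j hj
    rw [hx] at h1
    rw [hx'] at h2
    have h3 : c i = c j := by
      have : y + c i = y + c j := by rw [← h1, ← h2, h]
      exact add_left_cancel this
    have hij : i = j := hc hi hj h3
    subst hij
    have hxx : x = x' := by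
      funext v
      by_cases hv : v = i
      · subst hv
        have := congrFun h v
        simpa using this
      · have := congrFun h v
        simpa [Function.update_of_ne hv] using this
    subst hxx
    rfl
  have h := Nat.card_le_card_of_injective _ hinj
  rw [Nat.card_prod] at h
  simpa using h

section

variable {D : ℕ} {F : Type} [Field F] [Fintype F]

theorem blk_flip [CharP F 2] [DecidableEq F] (y : F → Bool) (e : F) :
    blk (Function.update y e (!y e)) = blk y + e := by
  unfold blk
  rw [← Finset.add_sum_erase _ _ (Finset.mem_univ e),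
    ← Finset.add_sum_erase univ (fun e => if y e = true then e else 0) (Finset.mem_univ e)]
  have h1 : ∑ x ∈ univ.erase e, (if Function.update y e (!y e) x = true then x else 0) =
      ∑ x ∈ univ.erase e, (if y x = true then x else 0) := by
    apply Finset.sum_congr rfl
    intro x hx
    rw [Function.update_of_ne (Finset.ne_of_mem_erase hx)]
  rw [h1]
  have h2 : (if Function.update y e (!y e) e = true then e else 0) =
      (if y e = true then e else 0) + e := by
    rw [Function.update_self]
    cases hy : y e
    · simp
    · simp [CharTwo.add_self_eq_zero]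
  rw [h2]
  ring

/-- a bit of the block at the root -/
def vRoot {ι : Type} {h : ℕ} (e : ι) : Var D ι (h + 1) := (Sum.inl e : ι ⊕ (Fin D × Var D ι h))

/-- a bit of the subtree number `p` -/
def vSub {ι : Type} {h : ℕ} (p : Fin D) (v : Var D ι h) : Var D ι (h + 1) :=
  (Sum.inr (p, v) : ι ⊕ (Fin D × Var D ι h))

theorem vRoot_inj {ι : Type} {h : ℕ} {a b : ι} (hab : (vRoot a : Var D ι (h + 1)) = vRoot b) :
    a = b := Sum.inl.inj hab

theorem vSub_inj {ι : Type} {h : ℕ} {p : Fin D} {a b : Var D ι h}
    (hab : (vSub p a : Var D ι (h + 1)) = vSub p b) : a = b := by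
  have := Sum.inr.inj hab
  exact (Prod.mk.inj this).2

theorem vSub_ne {ι : Type} {h : ℕ} {p : Fin D} {a : Var D ι h} {b : ι} :
    (vSub p a : Var D ι (h + 1)) ≠ vRoot b := by
  intro hab
  cases (hab : (Sum.inr (p, a) : ι ⊕ (Fin D × Var D ι h)) = Sum.inl b)

theorem root_apply {ι : Type} {h : ℕ} (x : Var D ι (h + 1) → Bool) (e : ι) :
    root x e = x (vRoot e) := rfl

theorem sub_apply {ι : Type} {h : ℕ} (x : Var D ι (h + 1) → Bool) (p : Fin D) (v : Var D ι h) :
    sub x p v = x (vSub p v) := rfl

theorem root_flip {ι : Type} [DecidableEq ι] {h : ℕ} (x : Var D ι (h + 1) → Bool) (e : ι)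
    (b : Bool) :
    root (Function.update x (vRoot e) b) = Function.update (root x) e b := by
  funext e'
  rw [root_apply]
  by_cases he : e' = e
  · subst he
    rw [Function.update_self, Function.update_self]
  · rw [Function.update_of_ne he, Function.update_of_ne, root_apply]
    intro h
    exact he (vRoot_inj h)

theorem sub_flip {ι : Type} [DecidableEq ι] {h : ℕ} (x : Var D ι (h + 1) → Bool) (e : ι)
    (b : Bool) (p : Fin D) :
    sub (Function.update x (vRoot e) b) p = sub x p := by
  funext v
  rw [sub_apply, Function.update_of_ne vSub_ne, sub_apply]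

/-- a function which changes by `e` if the bit `e` of the block at the root is changed -/
theorem root_count [CharP F 2] [DecidableEq F] {h : ℕ} (g : (Var D F (h + 1) → Bool) → F)
    (hg : ∀ (x : Var D F (h + 1) → Bool) (e : F),
      g (Function.update x (vRoot e) (!x (vRoot e))) = g x + e) :
    Nat.card {x // g x = 0} * Fintype.card F ≤ 2 ^ Fintype.card (Var D F (h + 1)) := by
  classical
  let em : F ↪ Var D F (h + 1) := ⟨fun e => vRoot e, fun a b hab => vRoot_inj hab⟩
  let c : Var D F (h + 1) → F := fun v => match (v : F ⊕ (Fin D × Var D F h)) with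
    | Sum.inl e => e
    | Sum.inr _ => 0
  have key := flip_count g (univ.map em) c ?_ ?_ 0
  · rw [Finset.card_map, Finset.card_univ] at key
    exact key
  · intro a ha b hb hab
    simp only [Finset.coe_map, Finset.coe_univ, Set.image_univ, Set.mem_range] at ha hb
    obtain ⟨a, rfl⟩ := ha
    obtain ⟨b, rfl⟩ := hb
    have : a = b := hab
    rw [this]
  · intro x i hi
    simp only [Finset.mem_map, Finset.mem_univ, true_and] at hi
    obtain ⟨e, rfl⟩ := hi
    exact hg x e

theorem leaf_count [CharP F 2] [DecidableEq F] :
    Nat.card {x : F → Bool // blk (F := F) x = 0} * Fintype.card F ≤ 2 ^ Fintype.card F := by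
  classical
  have key := flip_count (blk (F := F)) univ (fun e => e) (Function.injective_id.injOn)
    (fun x i _ => blk_flip x i) 0
  rw [Finset.card_univ] at key
  exact key

omit [Field F] in
theorem sub_count {h : ℕ} (Q : (Var D F h → Bool) → Prop) (C : ℕ) [DecidableEq F]
    (hQ : Nat.card {y : Var D F h → Bool // Q y} * Fintype.card F ≤
      C * 2 ^ Fintype.card (Var D F h)) (p : Fin D) :
    Nat.card {x : Var D F (h + 1) → Bool // Q (sub x p)} * Fintype.card F ≤
      C * 2 ^ Fintype.card (Var D F (h + 1)) := by
  classical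
  let em : Var D F h → Var D F (h + 1) := fun v => vSub p v
  have hem : Function.Injective em := fun a b hab => vSub_inj hab
  let W := {v : Var D F (h + 1) // v ∉ Set.range em}
  have hcard : Fintype.card (Var D F (h + 1)) = Fintype.card (Var D F h) + Fintype.card W := by
    have h1 := Fintype.card_subtype_compl (fun v : Var D F (h + 1) => v ∈ Set.range em)
    have h2 : Fintype.card {v : Var D F (h + 1) // v ∈ Set.range em} =
        Fintype.card (Var D F h) := Set.card_range_of_injective hem
    have h3 := Fintype.card_subtype_le (fun v : Var D F (h + 1) => v ∈ Set.range em)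
    have h4 : Fintype.card W = Fintype.card {v : Var D F (h + 1) // ¬ v ∈ Set.range em} := rfl
    omega
  have hinj : Function.Injective (fun x : {x : Var D F (h + 1) → Bool // Q (sub x p)} =>
      ((⟨sub x.1 p, x.2⟩ : {y : Var D F h → Bool // Q y}), (fun w : W => x.1 w.1))) := by
    rintro ⟨x, hx⟩ ⟨x', hx'⟩ hxx
    have h1 := (Prod.mk.inj hxx).1
    have h2 := (Prod.mk.inj hxx).2
    have h1' : sub x p = sub x' p := congrArg Subtype.val h1
    apply Subtype.ext
    funext v
    by_cases hv : v ∈ Set.range em
    · obtain ⟨w, rfl⟩ := hv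
      exact congrFun h1' w
    · exact congrFun h2 ⟨v, hv⟩
  have hle := Nat.card_le_card_of_injective _ hinj
  rw [Nat.card_prod] at hle
  have hW : Nat.card (W → Bool) = 2 ^ Fintype.card W := by
    rw [Nat.card_eq_fintype_card, Fintype.card_fun, Fintype.card_bool]
  rw [hW] at hle
  calc Nat.card {x : Var D F (h + 1) → Bool // Q (sub x p)} * Fintype.card F
      ≤ (Nat.card {y : Var D F h → Bool // Q y} * 2 ^ Fintype.card W) * Fintype.card F :=
        Nat.mul_le_mul_right _ hle
    _ = (Nat.card {y : Var D F h → Bool // Q y} * Fintype.card F) * 2 ^ Fintype.card W := by ring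
    _ ≤ (C * 2 ^ Fintype.card (Var D F h)) * 2 ^ Fintype.card W := Nat.mul_le_mul_right _ hQ
    _ = C * 2 ^ Fintype.card (Var D F (h + 1)) := by rw [hcard, pow_add]; ring

end

/-- the holes are finitely many -/
instance Hole.fintype (D : ℕ) : (h : ℕ) → Fintype (Hole D h)
  | 0 => inferInstanceAs (Fintype Empty)
  | h + 1 =>
    have := Hole.fintype D h
    inferInstanceAs (Fintype (Fin D × Option (Hole D h)))

theorem val_flip {D : ℕ} {F : Type} [Field F] [Fintype F] [CharP F 2] [DecidableEq F] {h : ℕ}
    (x : Var D F (h + 1) → Bool) (e : F) :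
    val (h + 1) (Function.update x (vRoot e) (!x (vRoot e))) = val (h + 1) x + e := by
  unfold val
  rw [root_flip]
  have h1 : (!x (vRoot e)) = (!root x e) := rfl
  rw [h1, blk_flip]
  simp only [sub_flip]
  ring

theorem hval_flip {D : ℕ} {F : Type} [Field F] [Fintype F] [CharP F 2] [DecidableEq F] {h : ℕ}
    (π : Hole D (h + 1)) (x : Var D F (h + 1) → Bool) (e : F) :
    hval (h + 1) π (Function.update x (vRoot e) (!x (vRoot e))) = hval (h + 1) π x + e := by
  have h1 : (!x (vRoot e)) = (!root x e) := rfl
  obtain ⟨p, o⟩ := π
  cases o with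
  | none =>
    change blk (root _) = blk (root x) + e
    rw [root_flip, h1, blk_flip]
  | some π =>
    change blk (root _) + oth _ p * hval h π (sub _ p) =
      blk (root x) + oth x p * hval h π (sub x p) + e
    rw [root_flip, h1, blk_flip]
    unfold oth
    simp only [sub_flip]
    ring

/-- Most inputs are nice. -/
theorem nice_count (D h : ℕ) : ∃ C : ℕ, ∀ (F : Type) [Field F] [Fintype F] [CharP F 2],
    Nat.card {x : Var D F h → Bool // ¬ Nice h x} * Fintype.card F ≤
      C * 2 ^ Fintype.card (Var D F h) := by
  classical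
  induction h with
  | zero =>
    refine ⟨1, fun F _ _ _ => ?_⟩
    have h1 : Nat.card {x : Var D F 0 → Bool // ¬ Nice 0 x} =
        Nat.card {x : F → Bool // blk (F := F) x = 0} :=
      Nat.card_congr (Equiv.subtypeEquivRight (fun x => not_not))
    rw [h1, one_mul]
    exact leaf_count
  | succ h ih =>
    obtain ⟨C, hC⟩ := ih
    refine ⟨1 + Fintype.card (Hole D (h + 1)) + D * C, fun F _ _ _ => ?_⟩
    have hval' : Nat.card {x : Var D F (h + 1) → Bool // val (h + 1) x = 0} * Fintype.card F ≤
        2 ^ Fintype.card (Var D F (h + 1)) := root_count _ val_flip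
    have hhole : ∀ π : Hole D (h + 1),
        Nat.card {x : Var D F (h + 1) → Bool // hval (h + 1) π x = 0} * Fintype.card F ≤
        2 ^ Fintype.card (Var D F (h + 1)) := fun π => root_count _ (hval_flip π)
    have hsub : ∀ p : Fin D,
        Nat.card {x : Var D F (h + 1) → Bool // ¬ Nice h (sub x p)} * Fintype.card F ≤
        C * 2 ^ Fintype.card (Var D F (h + 1)) :=
      fun p => sub_count (fun y => ¬ Nice h y) C (hC F) p
    have hle : Nat.card {x : Var D F (h + 1) → Bool // ¬ Nice (h + 1) x} ≤
        Nat.card {x : Var D F (h + 1) → Bool // val (h + 1) x = 0} +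
        ∑ π : Hole D (h + 1), Nat.card {x : Var D F (h + 1) → Bool // hval (h + 1) π x = 0} +
        ∑ p : Fin D, Nat.card {x : Var D F (h + 1) → Bool // ¬ Nice h (sub x p)} := by
      simp only [Nat.card_eq_fintype_card, Fintype.card_subtype]
      refine le_trans (Finset.card_le_card (t := (univ.filter
        (fun x : Var D F (h + 1) → Bool => val (h + 1) x = 0) ∪
        univ.biUnion (fun π : Hole D (h + 1) =>
          univ.filter (fun x : Var D F (h + 1) → Bool => hval (h + 1) π x = 0))) ∪
        univ.biUnion (fun p : Fin D =>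
          univ.filter (fun x : Var D F (h + 1) → Bool => ¬ Nice h (sub x p)))) ?_) ?_
      · intro x hx
        simp only [mem_filter, mem_univ, true_and] at hx
        simp only [mem_union, mem_filter, mem_univ, true_and, mem_biUnion]
        by_contra hcon
        push Not at hcon
        exact hx ⟨hcon.1.1, hcon.1.2, hcon.2⟩
      · refine le_trans (Finset.card_union_le _ _) (Nat.add_le_add ?_ Finset.card_biUnion_le)
        exact le_trans (Finset.card_union_le _ _) (Nat.add_le_add le_rfl Finset.card_biUnion_le)
    calc Nat.card {x : Var D F (h + 1) → Bool // ¬ Nice (h + 1) x} * Fintype.card F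
        ≤ (Nat.card {x : Var D F (h + 1) → Bool // val (h + 1) x = 0} +
        ∑ π : Hole D (h + 1), Nat.card {x : Var D F (h + 1) → Bool // hval (h + 1) π x = 0} +
        ∑ p : Fin D, Nat.card {x : Var D F (h + 1) → Bool // ¬ Nice h (sub x p)}) *
          Fintype.card F := Nat.mul_le_mul_right _ hle
      _ = Nat.card {x : Var D F (h + 1) → Bool // val (h + 1) x = 0} * Fintype.card F +
        ∑ π : Hole D (h + 1), Nat.card {x : Var D F (h + 1) → Bool // hval (h + 1) π x = 0} *
          Fintype.card F +
        ∑ p : Fin D, Nat.card {x : Var D F (h + 1) → Bool // ¬ Nice h (sub x p)} *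
          Fintype.card F := by rw [add_mul, add_mul, Finset.sum_mul, Finset.sum_mul]
      _ ≤ 2 ^ Fintype.card (Var D F (h + 1)) +
        ∑ _π : Hole D (h + 1), 2 ^ Fintype.card (Var D F (h + 1)) +
        ∑ _p : Fin D, C * 2 ^ Fintype.card (Var D F (h + 1)) := by
          refine Nat.add_le_add (Nat.add_le_add hval' ?_) ?_
          · exact Finset.sum_le_sum (fun π _ => hhole π)
          · exact Finset.sum_le_sum (fun p _ => hsub p)
      _ = (1 + Fintype.card (Hole D (h + 1)) + D * C) *
          2 ^ Fintype.card (Var D F (h + 1)) := by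
          rw [Finset.sum_const, Finset.sum_const, Finset.card_univ, Finset.card_univ,
            Fintype.card_fin]
          simp only [smul_eq_mul]
          ring

end Pool.Agent.V8H39.SR
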